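import Pool.Agent.Run7.h823.SG.Lin
import Pool.Agent.Run7.h823.WF.PN
import Pool.Agent.Run7.h823.WF.Ex

/-!
# Short Egyptian expansions of `k / n`: denominators in sparse families of residues

The question is whether for every `k` and all large `n` the fraction `k / n` is a sum of at most three distinct unit fractions.
It is known that the exceptions have density zero for every `k` (Vaughan). Such a statement says nothing about sparse sets
of `n`. Here `n` is near the value of a linear form at members of very sparse FINITE sets of integers which are defined modulo a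
large integer, such as the first `m ^ ε` terms of a linear recurrence modulo a prime `m`; for most of them even two unit
fractions suffice, for all `k ≤ B` at once.

Let `y_i`, `i ∈ s`, be a finite family of vectors of residues modulo an integer `q` with small Fourier coefficients: for all
`h ≠ 0` modulo `q` we have `|∑ e(h·y_i / q)| ≤ δ (log q) ^ (-r) |s|`, where `r` is the number of the coordinates. We consider
the integers `n` near `ℓ(c₀ + y_i)` (least residues), for linear forms `ℓ ≠ 0` with integral coefficients and any integral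
vector `c₀`.

**Theorem.** For all `r`, `B` and `ε > 0` there is `δ > 0` such that for all `q ≥ 1 / δ`, ALL such families
and ALL `c₀` the following holds for all but `ε |s|` of the `i`, SIMULTANEOUSLY for ALL linear forms `ℓ ≠ 0` with
coefficients at most `B` in absolute value and ALL integers `1 ≤ n` with `|n - ℓ(c₀ + y_i)| ≤ B`: `k / n` is a sum of
two different unit fractions, for ALL `1 ≤ k ≤ B`.

The family can be very sparse: examples (of vectors with `r` coordinates) are

* the values `(u_1(n), …, u_r(n))`, `n < N`, of `r` linear recurrences modulo a prime `m` with linearly independent vectors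
  of coefficients, as soon as `N ≥ m ^ ε` and the roots and their quotients have orders `≥ m ^ ε`;
* the vectors `(x_1 b_1 ^ n, …, x_r b_r ^ n)`, `n < N`, `N ≥ m ^ ε`, for fixed different integers `b_j ≥ 2` and
  all `x_j ≠ 0`, modulo all but `C X ^ ε` of the primes `m ≤ X`.

In these examples only `m ^ ε` of the `m ^ r` vectors of the box occur.

From Mathlib: `ZMod.stdAddChar`: the additive character `j ↦ exp (2 π i j / q)` of the integers modulo `q`; `ZMod.val`: the
least residue.

The proof: if `n` has a prime factor `p ≡ -1` modulo `k`, then `k / n` is a sum of two different unit fractions. By Dirichlet's theorem the vectors `c` such that some integer near `ℓ(c)` is an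
exception form a pronull set (`Pool.Agent.Run7.h823.SG.windows`); families with small Fourier coefficients rarely meet
pronull sets, since they are equidistributed modulo every fixed integer (`Pool.Agent.Run7.h823.WF.PN`); the Fourier
coefficients of short recurrences are estimated by the method of Bourgain, Glibichuk and Konyagin (`Pool.Agent.Run7.h823.BK`).
-/

set_option autoImplicit false

namespace Pool.Agent.Results.MP_393cd8_nt.ResidueVectors

open Finset (range)

/-- The Fourier coefficients of the vectors of residues `y i`, `i ∈ s`, modulo `q` at the nonzero frequencies are at most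
`η` times the number of the vectors: `|∑ i ∈ s, e(h·y_i / q)| ≤ η |s|` for all vectors `h ≠ 0` modulo `q`. -/
def Flat {τ ι : Type} [Fintype ι] (q : ℕ) [NeZero q] (η : ℝ) (s : Finset τ) (y : τ → ι → ZMod q) : Prop :=
  ∀ h : ι → ZMod q, h ≠ 0 → ‖∑ i ∈ s, (ZMod.stdAddChar (∑ j, h j * y i j) : ℂ)‖ ≤ η * s.card

/-- The integral vector `c₀ + y_i`, with the least residues `0 ≤ y_i < q`. -/
def vec {τ ι : Type} {q : ℕ} (y : τ → ι → ZMod q) (c₀ : ι → ℤ) (i : τ) (j : ι) : ℤ := c₀ j + ((y i j).val : ℕ)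

/-- `k / n` is a sum of two different unit fractions -/
def TwoTerms (k n : ℕ) : Prop := ∃ a b : ℕ, 0 < a ∧ a < b ∧ (k : ℚ) / n = 1 / a + 1 / b

/-- `k / n` is a sum of two different unit fractions if `n` has a prime factor `p ≡ -1` modulo `k` -/
theorem of_dvd {k p n : ℕ} (hp : p.Prime) (h : k ∣ p + 1) (hn : 0 < n) (hpn : p ∣ n) : TwoTerms k n := by
  obtain ⟨u, rfl⟩ := hpn
  obtain ⟨t, ht⟩ := h
  have hu : 0 < u := Nat.pos_of_mul_pos_left hn
  have ht0 : 0 < t := Nat.pos_of_ne_zero fun h => by rw [h, mul_zero] at ht; omega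
  have hp2 := hp.two_le
  refine ⟨u * t, u * t * p, Nat.mul_pos hu ht0, ?_, ?_⟩
  · have h1 : 0 < u * t := Nat.mul_pos hu ht0
    nlinarith
  · have h1 : ((p : ℚ) + 1) = k * t := by exact_mod_cast ht
    have hu' : (u : ℚ) ≠ 0 := by exact_mod_cast hu.ne'
    have ht' : (t : ℚ) ≠ 0 := by exact_mod_cast ht0.ne'
    have hp' : (p : ℚ) ≠ 0 := by exact_mod_cast hp.ne_zero
    push_cast
    field_simp
    linarith

/-- For all `k` with `1 ≤ k ≤ B` and all `n ≥ 1` near the values of all small linear forms at the integral vector `c` the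
fraction `k / n` is a sum of two different unit fractions: for all linear forms `ℓ ≠ 0` with coefficients `|lam_j| ≤ B`, all `n ≥ 1` with
`|n - ℓ(c)| ≤ B` and all `k`. -/
def ShortNear {r : ℕ} (B : ℕ) (c : Fin r → ℤ) : Prop :=
  ∀ lam : Fin r → ℤ, lam ≠ 0 → (∀ j, |lam j| ≤ B) →
    ∀ n : ℕ, 1 ≤ n → |(n : ℤ) - ∑ j, lam j * c j| ≤ B → ∀ k : ℕ, 1 ≤ k → k ≤ B → TwoTerms k n

theorem thin (k : ℕ) (hk : 1 ≤ k) :
    Pool.Agent.Run7.h823.SG.Thin (fun x => ∃ n : ℕ, 1 ≤ n ∧ (n : ℤ) = x ∧ ¬ TwoTerms k n) := by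
  have : NeZero k := ⟨by omega⟩
  refine Pool.Agent.Run7.h823.SG.crit0 _ (fun q => (q : ZMod k) = -1) (fun _ => 0)
    (Pool.Agent.H771R2.Dens.big_ap isUnit_one.neg) ?_
  rintro x ⟨n, hn, rfl, hd⟩ q hq hqk hnq
  apply hd
  refine of_dvd hq ?_ hn ?_
  · rw [← ZMod.natCast_eq_zero_iff]
    push_cast
    rw [hqk, neg_add_cancel]
  · rw [← ZMod.natCast_eq_zero_iff]
    simpa using hnq

open Pool.Agent.N24.RW (ProNull) in
theorem null (r B : ℕ) : ProNull {c : Fin r → ℤ | ¬ ShortNear B c} := by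
  refine Pool.Agent.N24.RW.Clo.mono ?_ (Pool.Agent.Run7.h823.WF.PN.proNull_union (Set.finite_Icc 1 B)
    (fun k => {c : Fin r → ℤ | ∃ lam : Fin r → ℤ, lam ≠ 0 ∧ (∀ j, |lam j| ≤ B) ∧
      ∃ n : ℤ, |n - ∑ j, lam j * c j| ≤ B ∧ ∃ m : ℕ, 1 ≤ m ∧ (m : ℤ) = n ∧ ¬ TwoTerms k m})
    (fun k hk => Pool.Agent.Run7.h823.SG.windows (thin k hk.1) r B))
  intro c hc
  by_contra hcon
  apply hc
  intro lam hl hlB n hn hnf k hk hkB
  by_contra hd
  exact hcon ⟨k, ⟨hk, hkB⟩, lam, hl, hlB, n, hnf, n, hn, rfl, hd⟩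

/-- **Theorem.** (1) For all `r`, `B` and `ε > 0` there is `δ > 0` such that for all `q ≥ 1 / δ`, all families of vectors of
residues modulo `q` with Fourier coefficients at most `δ (log q) ^ (-r) |s|` at the nonzero frequencies and all integral
vectors `c₀` all but `ε |s|` of the members `c₀ + y_i` have the property `ShortNear B`.

(2) Examples: short linear recurrences. (3) Examples: the first powers of fixed integers, modulo all but `C X ^ ε` of the
primes `m ≤ X`. (The Fourier coefficients are even at most `m ^ (-β) N`.) -/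
theorem result :
    (∀ (r B : ℕ) (ε : ℝ), 0 < ε → ∃ δ : ℝ, 0 < δ ∧ ∀ (q : ℕ) [NeZero q], 1 / δ ≤ q →
      ∀ (τ : Type) (s : Finset τ) (y : τ → Fin r → ZMod q), Flat q (δ / Real.log q ^ r) s y →
      ∀ c₀ : Fin r → ℤ, ({i : τ | i ∈ s ∧ ¬ ShortNear B (vec y c₀ i)}.ncard : ℝ) ≤ ε * s.card) ∧
    (∀ (k : ℕ) (ε : ℝ), 0 < ε → ∃ β : ℝ, 0 < β ∧ ∃ m₀ : ℕ, ∀ (m : ℕ) [Fact m.Prime], m₀ ≤ m →
      ∀ (ι : Type) [Fintype ι] (c : ι → Fin k → ZMod m) (g : Fin k → (ZMod m)ˣ) (N : ℕ), LinearIndependent (ZMod m) c →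
      (∀ i, (m : ℝ) ^ ε ≤ orderOf (g i)) → (∀ i j, i ≠ j → (m : ℝ) ^ ε ≤ orderOf (g i / g j)) → (m : ℝ) ^ ε ≤ N →
      Flat m ((m : ℝ) ^ (-β)) (range N) (fun n j => ∑ i, c j i * (g i : ZMod m) ^ n)) ∧
    (∀ (ι : Type) [Fintype ι] (ε : ℝ), 0 < ε → ∃ β : ℝ, 0 < β ∧ ∀ b : ι → ℕ, (∀ j, 2 ≤ b j) → Function.Injective b →
      ∃ C : ℝ, ∀ X : ℕ, 1 ≤ X → ∀ Q : Finset ℕ,
      (∀ m ∈ Q, m ≤ X ∧ ∃ _ : Fact m.Prime, ¬ ∀ N : ℕ, (m : ℝ) ^ ε ≤ N → ∀ x : ι → ZMod m, (∀ j, x j ≠ 0) →
        Flat m ((m : ℝ) ^ (-β)) (range N) (fun n j => x j * (b j : ZMod m) ^ n)) →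
      (Q.card : ℝ) ≤ C * (X : ℝ) ^ ε) := by
  refine ⟨?_, fun k ε hε => Pool.Agent.Run7.h823.WF.flat_rec' k hε,
    fun ι _ ε hε => Pool.Agent.Run7.h823.WF.flat_pow' ι hε⟩
  intro r B ε hε
  obtain ⟨δ, hδ, h⟩ := Pool.Agent.Run7.h823.WF.PN.rare _ (null r B) hε
  refine ⟨δ, hδ, fun q _ hq τ s y hf c₀ => h τ q hq s y ?_ c₀⟩
  rw [Fintype.card_fin]
  exact hf

end Pool.Agent.Results.MP_393cd8_nt.ResidueVectors
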